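import Pool.Agent.L0h32.HA.Lazy2

/-!
# Both heads have to work

There is a language `L` accepted by a deterministic two-way one-head pushdown automaton such
that in every nondeterministic two-way two-head finite automaton for `L` **each** of the two
heads has to make `Ω(n log n)` moves, and `Ω(log n)` reversals, on suitable words of `L`, while
nothing at all is assumed on the other head.
-/

namespace Pool.Agent.L0h32.HA

/-- The number of reversals of head `i` in the first `T` steps of `c`. -/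
noncomputable def HeadAut.revsOf {k : ℕ} {A : Type} {M : HeadAut k A} (c : ℕ → M.Cfg)
    (i : Fin k) (T : ℕ) : ℕ :=
  Set.ncard {t : ℕ | t < T ∧ HeadAut.Rev c i t}

/-- Head `i` is one-way: it never moves to the left. -/
def HeadAut.OneWay {k : ℕ} {A : Type} (M : HeadAut k A) (i : Fin k) : Prop :=
  ∀ q σ q' m, M.δ q σ q' m → m i ≠ -1

/-- The languages accepted by a `k`-head automaton that has, for every accepted word `w`, an
accepting computation in which some head makes at most `f |w|` moves. -/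
def NHEADSLAZY (k : ℕ) (A : Type) (f : ℕ → ℕ) : Set (Set (List A)) :=
  {L | ∃ M : HeadAut k A, M.lang = L ∧
    ∀ w ∈ M.lang, ∃ T c, M.IsAccRun w T c ∧ ∃ i, HeadAut.moves c i T ≤ f w.length}

/-- The languages accepted by a `k`-head automaton that has, for every accepted word `w`, an
accepting computation in which some head makes at most `r |w|` reversals. -/
def NHEADSREVLAZY (k : ℕ) (A : Type) (r : ℕ → ℕ) : Set (Set (List A)) :=
  {L | ∃ M : HeadAut k A, M.lang = L ∧
    ∀ w ∈ M.lang, ∃ T c, M.IsAccRun w T c ∧ ∃ i, HeadAut.revsOf c i T ≤ r w.length}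

/-- A head that makes few reversals makes few moves. -/
lemma mv_le_rev (p : ℕ → ℕ) (B N : ℕ) (hB : ∀ t ≤ N, p t ≤ B)
    (hp : ∀ t < N, p (t + 1) ≤ p t + 1 ∧ p t ≤ p (t + 1) + 1) :
    mv p N ≤ B * (((Finset.range N).filter (fun t => Rv p t)).card + 1) := by
  have key : ∀ T ≤ N, mv p T ≤ B * ((Finset.range T).filter (fun t => Rv p t)).card +
      (if dr p T = 1 then p T else if dr p T = -1 then B - p T else 0) := by
    intro T
    induction T with
    | zero => simp [mv]
    | succ T ih =>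
      intro hTN
      replace ih := ih (by omega)
      have hrv : ((Finset.range (T + 1)).filter (fun t => Rv p t)).card =
          ((Finset.range T).filter (fun t => Rv p t)).card + if Rv p T then 1 else 0 := by
        rw [Finset.range_add_one, Finset.filter_insert]
        split_ifs with h
        · rw [Finset.card_insert_of_notMem (by simp)]
        · rfl
      rw [hrv, mv_succ, Nat.mul_add]
      have hd : dr p (T + 1) = if p T < p (T + 1) then 1 else if p (T + 1) < p T then -1
        else dr p T := rfl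
      have b1 := hB T (by omega)
      have b2 := hB (T + 1) hTN
      obtain ⟨s1, s2⟩ := hp T (by omega)
      rcases lt_trichotomy (p T) (p (T + 1)) with h | h | h
      · have hd1 : dr p (T + 1) = 1 := by rw [hd, if_pos h]
        rw [hd1, if_pos (show (1 : SignType) = 1 from rfl),
          if_pos (show p T ≠ p (T + 1) by omega)]
        by_cases h1 : dr p T = -1
        · rw [if_pos (show Rv p T from Or.inl ⟨h, h1⟩)]
          rw [h1] at ih
          rw [if_neg (by decide), if_pos rfl] at ih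
          omega
        · by_cases h2 : dr p T = 1
          · rw [if_pos h2] at ih
            omega
          · rw [if_neg h2, if_neg h1] at ih
            omega
      · have hd1 : dr p (T + 1) = dr p T := by
          rw [hd, if_neg (by omega), if_neg (by omega)]
        rw [hd1, if_neg (show ¬ (p T ≠ p (T + 1)) by omega), ← h]
        omega
      · have hd1 : dr p (T + 1) = -1 := by rw [hd, if_neg (by omega), if_pos h]
        rw [hd1, if_neg (show ¬ ((-1 : SignType) = 1) by decide),
          if_pos (show (-1 : SignType) = -1 from rfl),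
          if_pos (show p T ≠ p (T + 1) by omega)]
        by_cases h1 : dr p T = 1
        · rw [if_pos (show Rv p T from Or.inr ⟨h, h1⟩)]
          rw [if_pos h1] at ih
          omega
        · rw [if_neg h1] at ih
          by_cases h2 : dr p T = -1
          · rw [if_pos h2] at ih
            omega
          · rw [if_neg h2] at ih
            omega
  have h := key N le_rfl
  have h1 : (if dr p N = 1 then p N else if dr p N = -1 then B - p N else 0) ≤ B := by
    have := hB N le_rfl
    split_ifs <;> omega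
  rw [Nat.mul_add, Nat.mul_one]
  omega

lemma revsOf_eq {M : HeadAut 2 Sym} (c : ℕ → M.Cfg) (i : Fin 2) (T : ℕ) :
    HeadAut.revsOf c i T =
      ((Finset.range T).filter (fun t => Rv (fun t => (c t).2 i) t)).card := by
  unfold HeadAut.revsOf
  rw [← Set.ncard_coe_finset]
  congr 1
  ext t
  simp [rev_iff]

lemma moves_le_revs {M : HeadAut 2 Sym} {w : List Sym} {T : ℕ} {c : ℕ → M.Cfg}
    (hc : M.IsAccRun w T c) (i : Fin 2) :
    HeadAut.moves c i T ≤ (w.length + 1) * (HeadAut.revsOf c i T + 1) := by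
  rw [revsOf_eq]
  obtain ⟨h0, h1, _⟩ := hc
  refine mv_le_rev (fun t => (c t).2 i) (w.length + 1) T ?_ ?_
  · intro t ht
    cases t with
    | zero => rw [h0]; simp [HeadAut.init]
    | succ t => exact (step_pos M (h1 t (by omega)) i).2.2
  · intro t ht
    have := step_pos M (h1 t ht) i
    exact ⟨this.1, this.2.1⟩

/-- The quantitative lower bound. -/
theorem lazy_bound' (M : HeadAut 2 Sym) (l : ℕ) (hl : 1 ≤ l)
    (hM : ∀ w : List Sym, w.length = 5 * l → (w ∈ M.lang ↔ w ∈ P.lang)) :
    ∃ w ∈ P.lang, w.length = 5 * l ∧ ∀ T c, M.IsAccRun w T c → ∀ i : Fin 2,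
      l * Nat.log 2 l ≤ 2 ^ 20 * (Nat.log 2 (Fintype.card M.Q) + 1) *
        (HeadAut.moves c i T + l) ∧
      Nat.log 2 l ≤ 2 ^ 23 * (Nat.log 2 (Fintype.card M.Q) + 1) *
        (HeadAut.revsOf c i T + 1) := by
  obtain ⟨w, hw, hlen, h⟩ := lazy_bound M l hl hM
  refine ⟨w, hw, hlen, fun T c hc i => ⟨h T c hc i, ?_⟩⟩
  have h1 := h T c hc i
  have h2 := moves_le_revs hc i
  rw [hlen] at h2
  set K := Nat.log 2 (Fintype.card M.Q) + 1 with hK
  set r := HeadAut.revsOf c i T with hr
  have h3 : HeadAut.moves c i T + l ≤ l * (8 * (r + 1)) := by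
    have e1 : (5 * l + 1) * (r + 1) + l ≤ l * (8 * (r + 1)) := by
      have e2 : 1 * (r + 1) ≤ l * (r + 1) := Nat.mul_le_mul_right _ hl
      have e3 : l * 1 ≤ l * (r + 1) := Nat.mul_le_mul_left _ (by omega)
      have e4 : (5 * l + 1) * (r + 1) + l = 5 * (l * (r + 1)) + 1 * (r + 1) + l * 1 := by ring
      have e5 : l * (8 * (r + 1)) = 8 * (l * (r + 1)) := by ring
      rw [e4, e5]
      omega
    omega
  have h4 : l * Nat.log 2 l ≤ l * (2 ^ 23 * K * (r + 1)) := by
    calc l * Nat.log 2 l ≤ 2 ^ 20 * K * (HeadAut.moves c i T + l) := h1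
      _ ≤ 2 ^ 20 * K * (l * (8 * (r + 1))) := Nat.mul_le_mul_left _ h3
      _ = l * (2 ^ 23 * K * (r + 1)) := by ring
  exact Nat.le_of_mul_le_mul_left h4 (by omega)

lemma log_five_pow (j : ℕ) : Real.log ((5 * 2 ^ j : ℕ) : ℝ) ≤ j + 3 := by
  have h1 : ((5 * 2 ^ j : ℕ) : ℝ) ≤ Real.exp (j + 3) := by
    have h2 : (2 : ℝ) ≤ Real.exp 1 := by
      have := Real.add_one_le_exp (1 : ℝ)
      linarith
    have h3 : Real.exp ((j : ℝ) + 3) = Real.exp 1 ^ (j + 3) := by
      rw [← Real.exp_nat_mul]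
      congr 1
      push_cast
      ring
    rw [h3, pow_add]
    push_cast
    have h4 : (2 : ℝ) ^ j ≤ Real.exp 1 ^ j := pow_le_pow_left₀ (by norm_num) h2 j
    have h5 : (2 : ℝ) ^ 3 ≤ Real.exp 1 ^ 3 := pow_le_pow_left₀ (by norm_num) h2 3
    have h6 : (0 : ℝ) ≤ 2 ^ j := by positivity
    nlinarith
  have h2 : (0 : ℝ) < ((5 * 2 ^ j : ℕ) : ℝ) := by positivity
  calc Real.log ((5 * 2 ^ j : ℕ) : ℝ) ≤ Real.log (Real.exp (j + 3)) := Real.log_le_log h2 h1
    _ = j + 3 := Real.log_exp _

lemma not_lazy (f : ℕ → ℕ)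
    (hf : (fun n => (f n : ℝ)) =o[Filter.atTop] (fun n : ℕ => (n : ℝ) * Real.log n)) :
    P.lang ∉ NHEADSLAZY 2 Sym f := by
  rintro ⟨M, hM, hrun⟩
  obtain ⟨K, hK⟩ : ∃ K : ℕ, K = 2 ^ 20 * (Nat.log 2 (Fintype.card M.Q) + 1) := ⟨_, rfl⟩
  have hKpos : 0 < K := by rw [hK]; positivity
  have hev := hf.def (c := 1 / (20 * (K : ℝ))) (by positivity)
  obtain ⟨N, hN⟩ := Filter.eventually_atTop.1 hev
  obtain ⟨j, hj⟩ : ∃ j : ℕ, j = N + 2 * K + 2 := ⟨_, rfl⟩
  have hNj : N ≤ 5 * 2 ^ j := by
    have : j < 2 ^ j := Nat.lt_two_pow_self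
    omega
  obtain ⟨w, hw, hlen, hall⟩ := lazy_bound' M (2 ^ j) Nat.one_le_two_pow (fun w _ => by rw [hM])
  rw [← hM] at hw
  obtain ⟨T, c, hc, i, hT⟩ := hrun w hw
  have h1 := (hall T c hc i).1
  rw [← hK, Nat.log_pow (by norm_num)] at h1
  have h2 := hN _ hNj
  rw [hlen] at hT
  have hlog := log_five_pow j
  have hlog0 : 0 ≤ Real.log ((5 * 2 ^ j : ℕ) : ℝ) := by
    apply Real.log_nonneg
    have : 1 ≤ 5 * 2 ^ j := by
      have := Nat.one_le_two_pow (n := j)
      omega
    exact_mod_cast this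
  rw [Real.norm_of_nonneg (by positivity),
    Real.norm_of_nonneg (mul_nonneg (by positivity) hlog0)] at h2
  have hT' : (HeadAut.moves c i T : ℝ) ≤ f (5 * 2 ^ j) := by exact_mod_cast hT
  have h1' : (2 : ℝ) ^ j * j ≤ K * (HeadAut.moves c i T + 2 ^ j) := by exact_mod_cast h1
  have hKr : (0 : ℝ) < K := by exact_mod_cast hKpos
  have hp : (0 : ℝ) < (2 : ℝ) ^ j := by positivity
  have h3 : (HeadAut.moves c i T : ℝ) ≤ 1 / (20 * (K : ℝ)) * (5 * 2 ^ j * (j + 3)) := by
    refine (hT'.trans h2).trans ?_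
    refine mul_le_mul_of_nonneg_left ?_ (by positivity)
    push_cast at hlog ⊢
    exact mul_le_mul_of_nonneg_left hlog (by positivity)
  have h4 : (K : ℝ) * HeadAut.moves c i T ≤ 2 ^ j * ((j + 3) / 4) := by
    calc (K : ℝ) * HeadAut.moves c i T ≤
          K * (1 / (20 * (K : ℝ)) * (5 * 2 ^ j * (j + 3))) :=
          mul_le_mul_of_nonneg_left h3 hKr.le
      _ = 2 ^ j * ((j + 3) / 4) := by field_simp; ring
  have h5 : (2 : ℝ) ^ j * j ≤ 2 ^ j * ((j + 3) / 4 + K) := by
    calc (2 : ℝ) ^ j * j ≤ K * (HeadAut.moves c i T + 2 ^ j) := h1'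
      _ = K * HeadAut.moves c i T + 2 ^ j * K := by ring
      _ ≤ 2 ^ j * ((j + 3) / 4) + 2 ^ j * K := by linarith
      _ = _ := by ring
  have h6 : (j : ℝ) ≤ (j + 3) / 4 + K := le_of_mul_le_mul_left h5 hp
  have h7 : (j : ℝ) ≥ 2 * K + 2 := by
    have : 2 * K + 2 ≤ j := by omega
    exact_mod_cast this
  linarith

lemma not_revlazy (r : ℕ → ℕ)
    (hr : (fun n => (r n : ℝ)) =o[Filter.atTop] (fun n : ℕ => Real.log n)) :
    P.lang ∉ NHEADSREVLAZY 2 Sym r := by
  rintro ⟨M, hM, hrun⟩
  obtain ⟨K, hK⟩ : ∃ K : ℕ, K = 2 ^ 23 * (Nat.log 2 (Fintype.card M.Q) + 1) := ⟨_, rfl⟩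
  have hKpos : 0 < K := by rw [hK]; positivity
  have hev := hr.def (c := 1 / (4 * (K : ℝ))) (by positivity)
  obtain ⟨N, hN⟩ := Filter.eventually_atTop.1 hev
  obtain ⟨j, hj⟩ : ∃ j : ℕ, j = N + 2 * K + 2 := ⟨_, rfl⟩
  have hNj : N ≤ 5 * 2 ^ j := by
    have : j < 2 ^ j := Nat.lt_two_pow_self
    omega
  obtain ⟨w, hw, hlen, hall⟩ := lazy_bound' M (2 ^ j) Nat.one_le_two_pow (fun w _ => by rw [hM])
  rw [← hM] at hw
  obtain ⟨T, c, hc, i, hT⟩ := hrun w hw
  have h1 := (hall T c hc i).2
  rw [← hK, Nat.log_pow (by norm_num)] at h1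
  have h2 := hN _ hNj
  rw [hlen] at hT
  have hlog := log_five_pow j
  have hlog0 : 0 ≤ Real.log ((5 * 2 ^ j : ℕ) : ℝ) := by
    apply Real.log_nonneg
    have : 1 ≤ 5 * 2 ^ j := by
      have := Nat.one_le_two_pow (n := j)
      omega
    exact_mod_cast this
  rw [Real.norm_of_nonneg (by positivity), Real.norm_of_nonneg hlog0] at h2
  have hT' : (HeadAut.revsOf c i T : ℝ) ≤ r (5 * 2 ^ j) := by exact_mod_cast hT
  have h1' : (j : ℝ) ≤ K * (HeadAut.revsOf c i T + 1) := by exact_mod_cast h1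
  have hKr : (0 : ℝ) < K := by exact_mod_cast hKpos
  have h3 : (HeadAut.revsOf c i T : ℝ) ≤ 1 / (4 * (K : ℝ)) * (j + 3) := by
    refine (hT'.trans h2).trans ?_
    exact mul_le_mul_of_nonneg_left hlog (by positivity)
  have h4 : (K : ℝ) * HeadAut.revsOf c i T ≤ (j + 3) / 4 := by
    calc (K : ℝ) * HeadAut.revsOf c i T ≤ K * (1 / (4 * (K : ℝ)) * (j + 3)) :=
          mul_le_mul_of_nonneg_left h3 hKr.le
      _ = (j + 3) / 4 := by field_simp
  have h7 : (j : ℝ) ≥ 2 * K + 2 := by
    have : 2 * K + 2 ≤ j := by omega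
    exact_mod_cast this
  linarith

/-- A one-way head makes no reversals. -/
lemma oneway_revs {k : ℕ} {A : Type} {M : HeadAut k A} {w : List A} {T : ℕ} {c : ℕ → M.Cfg}
    (hc : M.IsAccRun w T c) {i : Fin k} (h : M.OneWay i) : HeadAut.revsOf c i T = 0 := by
  obtain ⟨_, h1, _⟩ := hc
  have hup : ∀ t < T, (c t).2 i ≤ (c (t + 1)).2 i := by
    intro t ht
    obtain ⟨m, m1, m2, _⟩ := h1 t ht
    have m3 := h _ _ _ _ m1
    have m4 := m2 i
    have m5 : (0 : ℤ) ≤ (m i : ℤ) := by
      cases hmi : m i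
      · simp
      · exact absurd hmi m3
      · simp
    omega
  have hdir : ∀ t ≤ T, HeadAut.dir c i t ≠ -1 := by
    intro t
    induction t with
    | zero => intro _; simp [HeadAut.dir]
    | succ t ih =>
      intro ht
      have := hup t (by omega)
      unfold HeadAut.dir
      split_ifs with h2 h3
      · decide
      · omega
      · exact ih (by omega)
  unfold HeadAut.revsOf
  have : {t : ℕ | t < T ∧ HeadAut.Rev c i t} = ∅ := by
    ext t
    simp only [Set.mem_ofPred_eq, Set.mem_empty_iff_false, iff_false, not_and]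
    intro ht hrev
    have a := hup t ht
    have b := hdir t ht.le
    rcases hrev with ⟨_, h3⟩ | ⟨h3, _⟩
    · exact b h3
    · omega
  rw [this, Set.ncard_empty]

lemma not_oneway (M : HeadAut 2 Sym) (i : Fin 2) (h : M.OneWay i) : M.lang ≠ P.lang := by
  intro hM
  refine not_revlazy (fun _ => 0) ?_ ⟨M, hM, ?_⟩
  · simp only [Nat.cast_zero]
    exact Asymptotics.isLittleO_zero _ _
  · rintro w ⟨T, c, hc⟩
    exact ⟨T, c, hc, i, (oneway_revs hc h).le⟩

end Pool.Agent.L0h32.HA

namespace Pool.Agent.Results.MP_d0a708_lc.LazyHead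

open Pool.Agent.L0h32.HA

/-- **Both heads have to work.** There is a language `L` accepted by a deterministic two-way
one-head pushdown automaton such that:

* for every `l ≥ 1` and every nondeterministic two-way two-head finite automaton `M` with `s`
  states that agrees with `L` on the words of length `5 l`, there is a word `w ∈ L` of length
  `5 l` such that in every accepting computation of `M` on `w` **each** of the two heads makes
  at least `l ⌊log₂ l⌋ / (2^20 (⌊log₂ s⌋ + 1)) - l` moves and at least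
  `⌊log₂ l⌋ / (2^23 (⌊log₂ s⌋ + 1)) - 1` reversals, whatever the other head does;
* hence `L` is accepted by no nondeterministic two-way two-head finite automaton that accepts
  each accepted word by some computation in which one of the heads makes `o(n log n)` moves,
  or `o(log n)` reversals (the other head being unrestricted);
* in particular by none with a two-way head and a one-way head. -/
theorem result :
    ∃ L ∈ TwoDPDAHEADS 1 Sym,
      (∀ (M : HeadAut 2 Sym) (l : ℕ), 1 ≤ l →
        (∀ w : List Sym, w.length = 5 * l → (w ∈ M.lang ↔ w ∈ L)) →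
        ∃ w ∈ L, w.length = 5 * l ∧ ∀ T c, M.IsAccRun w T c → ∀ i : Fin 2,
          l * Nat.log 2 l ≤ 2 ^ 20 * (Nat.log 2 (Fintype.card M.Q) + 1) *
            (HeadAut.moves c i T + l) ∧
          Nat.log 2 l ≤ 2 ^ 23 * (Nat.log 2 (Fintype.card M.Q) + 1) *
            (HeadAut.revsOf c i T + 1)) ∧
      (∀ f : ℕ → ℕ,
        (fun n => (f n : ℝ)) =o[Filter.atTop] (fun n : ℕ => (n : ℝ) * Real.log n) →
        L ∉ NHEADSLAZY 2 Sym f) ∧
      (∀ r : ℕ → ℕ,
        (fun n => (r n : ℝ)) =o[Filter.atTop] (fun n : ℕ => Real.log n) →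
        L ∉ NHEADSREVLAZY 2 Sym r) ∧
      (∀ (M : HeadAut 2 Sym) (i : Fin 2), M.OneWay i → M.lang ≠ L) :=
  ⟨P.lang, ⟨P, P_det, rfl⟩, lazy_bound', not_lazy, not_revlazy, not_oneway⟩

end Pool.Agent.Results.MP_d0a708_lc.LazyHead
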